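import Pool.Agent.Helper17.QD.Glue

/-!
# Project QD (MP_d112a4_gt), glue: SPC (states: complex conjugation, marking, signs)
-/

set_option autoImplicit false

open Filter Topology Matrix Set Metric MeasureTheory
open scoped ComplexConjugate ComplexOrder ENNReal

namespace Pool.Agent.Helper82.QL

open Pool.Agent.Helper17.QD Pool.Agent.Helper35.PM
open Pool.Agent.Helper68.QC (nq Bel InvB Intw)
open Pool.Agent.Helper20.QD (Fuch cj IsSU D DD SS dz dzb)

private theorem cc_apply {Γ : Type} [Group Γ] (ρ : Γ →* SL) (γ : Γ) (i j : Fin 2) :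
    (cc ρ γ : SL) i j = conj ((ρ γ : SL) i j) := by
  unfold cc
  rfl

private theorem den_cc {Γ : Type} [Group Γ] (ρ : Γ →* SL) (γ : Γ) (z : ℂ) :
    Pool.Agent.Helper68.QC.den (cc ρ γ) z = conj (Pool.Agent.Helper68.QC.den (ρ γ) (conj z)) := by
  unfold Pool.Agent.Helper68.QC.den
  rw [cc_apply, cc_apply, map_add, map_mul, Complex.conj_conj]

private theorem mob_cc {Γ : Type} [Group Γ] (ρ : Γ →* SL) (γ : Γ) (z : ℂ) :
    Pool.Agent.Helper68.QC.mob (cc ρ γ) z = conj (Pool.Agent.Helper68.QC.mob (ρ γ) (conj z)) := by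
  unfold Pool.Agent.Helper68.QC.mob
  rw [den_cc, cc_apply, cc_apply, map_div₀, map_add, map_mul, Complex.conj_conj]

private theorem ae_conj {P : ℂ → Prop} (h : ∀ᵐ z : ℂ, P z) : ∀ᵐ z : ℂ, P (conj z) := by
  have hm : MeasurePreserving (Complex.conjLIE : ℂ ≃ₗᵢ[ℝ] ℂ) volume volume :=
    Complex.conjLIE.measurePreserving
  exact hm.quasiMeasurePreserving.ae h

private theorem neg_apply' (A : SL) (i j : Fin 2) : (-A : SL) i j = -(A i j) := by
  rw [Matrix.SpecialLinearGroup.coe_neg]
  rfl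

private theorem intw_neg {A B : SL} {w : ℂ → ℂ} (h : Intw A B w) : Intw A (-B) w := by
  have hd : ∀ z, Pool.Agent.Helper68.QC.den (-B) z = -Pool.Agent.Helper68.QC.den B z := by
    intro z
    unfold Pool.Agent.Helper68.QC.den
    rw [neg_apply', neg_apply']
    ring
  have hm : ∀ z, Pool.Agent.Helper68.QC.mob (-B) z = Pool.Agent.Helper68.QC.mob B z := by
    intro z
    unfold Pool.Agent.Helper68.QC.mob
    rw [hd, neg_apply', neg_apply']
    have e : (-(B 0 0) * z + -(B 0 1) : ℂ) = -(B 0 0 * z + B 0 1) := by ring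
    rw [e, neg_div_neg_eq]
  obtain ⟨h1, h2, h3, h4⟩ := h
  refine ⟨?_, ?_, ?_, ?_⟩
  · intro z
    rw [hd, neg_eq_zero]
    exact h1 z
  · intro z hz
    rw [hm]
    exact h2 z hz
  · rw [neg_apply', neg_eq_zero]
    exact h3
  · intro hA
    rw [h4 hA, neg_apply', neg_apply', neg_div_neg_eq]

theorem hSPC (hFPC : StFPC) (hNUC : StNUC) : StSPC := by
  intro Γ _ σ ρ μ k hst
  obtain ⟨hcc, hpre, -⟩ := hFPC Γ σ hst.fs
  obtain ⟨hbel, hnq⟩ := hNUC k hst.k1 μ hst.bel
  refine ⟨?_, ?_, ?_⟩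
  · refine ⟨hcc, hst.k0, hst.k1, hbel, ?_, ?_, ?_⟩
    · intro z hz
      have h1 : μ (conj z) = 0 := hst.out0 _ (by rw [Complex.norm_conj]; exact hz)
      change conj (μ (conj z)) = 0
      rw [h1, map_zero]
    · intro γ
      have h1 := ae_conj (hst.inv γ)
      unfold InvB
      filter_upwards [h1] with z hz
      have h2 := congrArg conj hz
      rw [map_mul, map_mul, map_pow, map_pow] at h2
      rw [mob_cc, den_cc, Complex.conj_conj]
      exact h2
    · intro γ
      obtain ⟨h1, h2, h3, h4⟩ := hst.int γ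
      refine ⟨?_, ?_, ?_, ?_⟩
      · intro z
        rw [den_cc, den_cc, hnq, Complex.conj_conj, map_eq_zero, map_eq_zero]
        exact h1 _
      · intro z hz
        rw [den_cc, map_ne_zero] at hz
        rw [mob_cc, mob_cc, hnq, hnq, Complex.conj_conj, Complex.conj_conj, h2 _ hz]
      · rw [cc_apply, cc_apply, map_eq_zero, map_eq_zero]
        exact h3
      · intro hA
        rw [cc_apply, map_ne_zero] at hA
        rw [cc_apply, cc_apply, cc_apply, cc_apply, hnq, ← map_div₀, ← map_div₀,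
          Complex.conj_conj, h4 hA]
  · intro φ
    exact ⟨hpre φ, hst.k0, hst.k1, hst.bel, hst.out0, fun γ => hst.inv (φ γ),
      fun γ => hst.int (φ γ)⟩
  · intro ρ' hρ'
    refine ⟨hst.fs, hst.k0, hst.k1, hst.bel, hst.out0, hst.inv, ?_⟩
    intro γ
    rcases hρ' γ with h | h
    · rw [h]
      exact hst.int γ
    · rw [h]
      exact intw_neg (hst.int γ)

end Pool.Agent.Helper82.QL
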